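import Pool.Agent.H69.DS.Es

/-!
# Gaussian disorder in dimension three: the density of states near the band edge on the scale `σ⁴`

`H_σ = Δ + σ ξ`, `(Δψ)(x) = ∑_{|y-x|=1} ψ(y)`, iid standard Gaussian `ξ`, weak coupling, on the
tori `(ℤ/L)³` of side `L ≥ K/σ²`.  There is an effective band edge `Es = Es(σ)`, the same for all
tori, such that the expected number of eigenvalues per site
* above `Es - κ` is of order `(κ + σ⁴)^{3/2}` for all `0 ≤ κ ≤ 1`;
* above `Es + κ` is of order `σ⁶ exp(-Θ(√κ/σ²))` for all `0 ≤ κ ≤ 1`.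
-/

set_option autoImplicit false

open scoped BigOperators
open MeasureTheory ProbabilityTheory

namespace Pool.Agent.Results.MP_1906c1_mp.DensityOfStatesCrossover

open Pool.Agent.Results.MP_1906c1_mp.ScaleAtEdge

/-- expected number of eigenvalues, per site, of `H_σ` on the torus `(ℤ/L)^3` that are at least `t` -/
noncomputable def density (L : ℕ) [NeZero L] (σ t : ℝ) : ℝ :=
  (∫ ξ, (numGE (d := 3) (L := L) σ ξ t : ℝ) ∂(Measure.pi fun _ : T 3 L => gaussianReal 0 1)) /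
    (L : ℝ) ^ 3

theorem density_eq (L : ℕ) [NeZero L] (σ t : ℝ) :
    density L σ t = Pool.Agent.H69.DS.Mul.dn L 3 (gaussianReal 0 1) σ (6 - t) := by
  obtain ⟨P, hP⟩ : ∃ P : Measure (T 3 L → ℝ), P = Measure.pi fun _ : T 3 L => gaussianReal 0 1 :=
    ⟨_, rfl⟩
  have hm := Pool.Agent.H69.DS.Ms.numGE_meas (d := 3) (L := L) σ t
  have hm' : Measurable fun ξ : T 3 L → ℝ => (numGE σ ξ t : ℝ) :=
    (measurable_from_nat (f := fun n : ℕ => (n : ℝ))).comp hm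
  have h1 : ∫ ξ, (numGE (d := 3) (L := L) σ ξ t : ℝ) ∂P =
      (∫⁻ ξ, (numGE (d := 3) (L := L) σ ξ t : ENNReal) ∂P).toReal := by
    rw [integral_eq_lintegral_of_nonneg_ae (Filter.Eventually.of_forall fun ξ => Nat.cast_nonneg _)
      hm'.aestronglyMeasurable]
    congr 1
    refine lintegral_congr fun ξ => ?_
    simp
  have h2 : ∫⁻ ξ, (numGE (d := 3) (L := L) σ ξ t : ENNReal) ∂P =
      ∫⁻ V, (Pool.Agent.H69.DS.Mul.cnt (d := 3) (L := L) σ V (6 - t) : ENNReal) ∂P := by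
    have hP2 : P.map (fun ξ x => -ξ x) = P := by rw [hP]; exact lawT_neg 3 L
    have hme : Measurable fun ξ : T 3 L → ℝ => (numGE σ ξ t : ENNReal) :=
      (measurable_from_nat (f := fun n : ℕ => (n : ENNReal))).comp hm
    have hneg : Measurable fun (ξ : T 3 L → ℝ) x => -ξ x := by fun_prop
    conv_lhs => rw [← hP2]
    rw [lintegral_map hme hneg]
    refine lintegral_congr fun V => ?_
    congr 1
    unfold Pool.Agent.H69.DS.Mul.cnt
    congr 1
    push_cast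
    ring
  unfold density Pool.Agent.H69.DS.Mul.dn
  rw [← hP, h1, h2]

theorem cube (y s : ℝ) (hy : 0 ≤ y) (hs : 0 < s) :
    (y ^ 2 + s ^ 2) ^ ((3 : ℝ) / 2) ≤ (y + s) ^ 3 ∧
      (y + s) ^ 3 ≤ 4 * (y ^ 2 + s ^ 2) ^ ((3 : ℝ) / 2) := by
  have hc : ∀ z : ℝ, 0 ≤ z → (z ^ 2) ^ ((3 : ℝ) / 2) = z ^ 3 := by
    intro z hz
    rw [← Real.rpow_natCast z 2, ← Real.rpow_mul hz, ← Real.rpow_natCast z 3]
    norm_num
  have h0 : 0 < y ^ 2 + s ^ 2 := by positivity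
  constructor
  · rw [← hc (y + s) (by linarith)]
    apply Real.rpow_le_rpow h0.le _ (by norm_num)
    have : 0 ≤ y * s := by positivity
    nlinarith
  · rw [← hc (y + s) (by linarith)]
    have h1 : (y + s) ^ 2 ≤ 2 * (y ^ 2 + s ^ 2) := by nlinarith [sq_nonneg (y - s)]
    refine (Real.rpow_le_rpow (sq_nonneg _) h1 (by norm_num)).trans ?_
    rw [Real.mul_rpow (by norm_num) h0.le]
    have h2 : (2 : ℝ) ^ ((3 : ℝ) / 2) ≤ 4 := by
      calc (2 : ℝ) ^ ((3 : ℝ) / 2) ≤ 2 ^ (2 : ℝ) :=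
            Real.rpow_le_rpow_of_exponent_le (by norm_num) (by norm_num)
        _ = 4 := by norm_num
    exact mul_le_mul_of_nonneg_right h2 (Real.rpow_nonneg h0.le _)

/-- **Theorem.** -/
theorem result :
    -- the number of eigenvalues is measurable
    (∀ (L : ℕ) [NeZero L] (σ t : ℝ), Measurable fun ξ : T 3 L → ℝ => numGE σ ξ t) ∧
    ∃ K : ℝ, 1 ≤ K ∧ ∀ σ : ℝ, 0 < σ → K * σ ≤ 1 → ∃ Es : ℝ, |Es - 6| ≤ 1 / 2 ∧
      -- on small tori the top eigenvector is flat and the top eigenvalue is close to `Es`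
      (∀ (L : ℕ) [NeZero L], K * (σ ^ 2 * L) ≤ 1 →
        ∃ G : Set (T 3 L → ℝ), MeasurableSet G ∧
          1 - K * Real.exp (-(1 / (K * (σ ^ 2 * L)))) ≤
            (Measure.pi fun _ : T 3 L => gaussianReal 0 1).real G ∧
          ∀ ξ ∈ G, ∃ (Et : ℝ) (ψ : T 3 L → ℝ), |Et - Es| ≤ K / (L : ℝ) ^ 2 ∧
            (∀ x, 1 ≤ ψ x ∧ ψ x ≤ 2) ∧ ∀ x, HT σ ξ ψ x = Et * ψ x) ∧
      -- on large tori
      ∀ (L : ℕ) [NeZero L], K ≤ σ ^ 2 * L → ∀ κ : ℝ, 0 ≤ κ → κ ≤ 1 →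
        ((κ + σ ^ 4) ^ ((3 : ℝ) / 2) / K ≤ density L σ (Es - κ) ∧
          density L σ (Es - κ) ≤ K * (κ + σ ^ 4) ^ ((3 : ℝ) / 2)) ∧
        (σ ^ 6 * Real.exp (-(K * Real.sqrt κ / σ ^ 2)) / K ≤ density L σ (Es + κ) ∧
          density L σ (Es + κ) ≤ K * σ ^ 6 * Real.exp (-(Real.sqrt κ / (K * σ ^ 2)))) := by
  refine ⟨fun L _ σ t => Pool.Agent.H69.DS.Ms.numGE_meas σ t, ?_⟩
  obtain ⟨A, hA, H⟩ := Pool.Agent.H69.DS.Es.sideG
  have hA0 : 0 < A := by linarith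
  refine ⟨4 * A, by linarith, ?_⟩
  intro σ hσ hσK
  have hσ2 : 0 < σ ^ 2 := by positivity
  obtain ⟨es, hes, hfl, HL⟩ := H σ hσ (by nlinarith)
  refine ⟨6 - es, by rw [sub_sub_cancel_left, abs_neg]; exact hes, ?_, ?_⟩
  · intro L _ hL
    have hL0 : (0 : ℝ) < L := by exact_mod_cast Nat.pos_of_ne_zero (NeZero.ne L)
    have hx : 0 < σ ^ 2 * (L : ℝ) := by positivity
    obtain ⟨G, hG, hP, hflat⟩ := hfl L (by rw [pow_one]; nlinarith)
    rw [pow_one] at hP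
    have hm : Measurable (fun (ξ : T 3 L → ℝ) y => -ξ y) := by fun_prop
    refine ⟨(fun ξ y => -ξ y) ⁻¹' G, hm hG, ?_, fun ξ hξ => ?_⟩
    · have h1 : (Measure.pi fun _ : T 3 L => gaussianReal 0 1).real ((fun ξ y => -ξ y) ⁻¹' G) =
          (Measure.pi fun _ : T 3 L => gaussianReal 0 1).real G := by
        conv_rhs => rw [← lawT_neg 3 L]
        rw [map_measureReal_apply hm hG]
      rw [h1]
      refine le_trans ?_ hP
      have h2 := Pool.Agent.K3h4.DS.D3.exp_mono A (4 * A) (σ ^ 2 * (L : ℝ)) hA0 (by linarith) hx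
      linarith
    · obtain ⟨E0, ψ, h1, h2, h3, -⟩ := hflat _ hξ
      refine ⟨6 - E0, ψ, ?_, fun x => ⟨(h2 x).1, by linarith [(h2 x).2]⟩, fun x => ?_⟩
      · have e1 : 6 - E0 - (6 - es) = -(E0 - es) := by ring
        rw [e1, abs_neg]
        exact h1.trans (div_le_div_of_nonneg_right (by linarith) (by positivity))
      · rw [HT_eq, h3 x]
        push_cast
        ring
  · intro L _ hL κ hκ hκ1
    obtain ⟨y, hy⟩ : ∃ y, y = Real.sqrt κ := ⟨_, rfl⟩
    have hy0 : 0 ≤ y := by rw [hy]; exact Real.sqrt_nonneg κ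
    have hy1 : y ≤ 1 := by rw [hy]; exact Real.sqrt_le_one.2 hκ1
    have hyy : y ^ 2 = κ := by rw [hy]; exact Real.sq_sqrt hκ
    obtain ⟨R1, R2, R3⟩ := HL L (by linarith)
    have e1 : 6 - (6 - es - κ) = es + y ^ 2 := by rw [hyy]; ring
    have e2 : 6 - (6 - es + κ) = es - y ^ 2 := by rw [hyy]; ring
    obtain ⟨c1, c2⟩ := cube y (σ ^ 2) hy0 hσ2
    have e3 : y ^ 2 + (σ ^ 2) ^ 2 = κ + σ ^ 4 := by rw [hyy]; ring
    rw [e3] at c1 c2
    have hX : 0 ≤ (κ + σ ^ 4) ^ ((3 : ℝ) / 2) := Real.rpow_nonneg (by positivity) _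
    rw [density_eq, density_eq, e1, e2, ← hy]
    obtain ⟨r1, r2⟩ := R1 y hy0 hy1
    refine ⟨⟨?_, ?_⟩, ?_, ?_⟩
    · refine le_trans ?_ r1
      calc (κ + σ ^ 4) ^ ((3 : ℝ) / 2) / (4 * A) ≤ (κ + σ ^ 4) ^ ((3 : ℝ) / 2) / A := by
            gcongr
            linarith
        _ ≤ (y + σ ^ 2) ^ 3 / A := by gcongr
    · refine r2.trans ?_
      calc A * (y + σ ^ 2) ^ 3 ≤ A * (4 * (κ + σ ^ 4) ^ ((3 : ℝ) / 2)) := by gcongr
        _ = _ := by ring
    · refine le_trans ?_ (R3 y hy0 hy1)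
      have h5 : Real.exp (-(4 * A * y / σ ^ 2)) ≤ Real.exp (-(A * (y / σ ^ 2))) := by
        apply Real.exp_le_exp.2
        apply neg_le_neg
        have : 0 ≤ A * (y / σ ^ 2) := by positivity
        have e : 4 * A * y / σ ^ 2 = 4 * (A * (y / σ ^ 2)) := by ring
        linarith
      gcongr
      linarith
    · refine (R2 y hy0 hy1).trans ?_
      have h5 : Real.exp (-(y / (A * σ ^ 2))) ≤ Real.exp (-(y / (4 * A * σ ^ 2))) := by
        apply Real.exp_le_exp.2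
        apply neg_le_neg
        gcongr
        linarith
      gcongr
      linarith

end Pool.Agent.Results.MP_1906c1_mp.DensityOfStatesCrossover
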