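import Pool.Graph.R_seed8.Results.MP_1906c1_mp.ScaleAtEdge
import Pool.Graph.R_seed8.W788.Tor3
import Pool.Graph.R_seed8.W788.Trans3
import Pool.Graph.R_pool_sql_team_seeded_5cf16337.K3h4.AN.Sp
import Pool.Agent.H69.AN.G3
import Pool.Agent.H69.AN.S1

/-!
# Gaussian disorder in dimension three: the mobility edge on the scale `σ⁴`

`H_σ = Δ + σ ξ` on `ℤ³`, `(Δψ)(x) = ∑_{|y-x|=1} ψ(y)`, iid standard Gaussian `ξ`, weak coupling.
There is an effective band edge `Es = Es(σ)` such that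
* at the energies `|E| ≥ Es + κ` there is exponential localization, for all
  `κ ≥ K σ⁴ (log log (1/σ))²`;
* for every `κ ≥ K σ⁴` the states of energy `|E| ≥ Es - κ` put mass at most `K κ^{3/2}` on each
  site outside a translation covariant random set of density at most `K exp(-√κ / (K σ²))`;
  this holds for `ℓ²`-eigenfunctions and for the spectral measures of the sites;
* on tori of side `L ≤ 1/(K σ²)` the top eigenvector is flat, its eigenvalue is within `K/L²` of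
  `Es`, and the eigenvalues, counted from the top one, agree with those of `Δ` up to the factor
  `(1+η)²`, with probability at least `1 - K exp(-1/(K σ² L))`.
-/

set_option autoImplicit false

open scoped BigOperators ENNReal
open MeasureTheory ProbabilityTheory

namespace Pool.Agent.Results.MP_1906c1_mp.EdgeScaleThreeDim

open Pool.Agent.Results.MP_1906c1_mp.ScaleAtEdge

theorem H_sp {d : ℕ} (σ E : ℝ) (ξ : (Fin d → ℤ) → ℝ) (u : (Fin d → ℤ) → ℂ)
    (h : ∀ x, H σ ξ u x = (E : ℂ) * u x) :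
    ∀ x, Pool.Agent.K3h4.AN.Sp.H σ (fun y => -ξ y) u x = ((2 * d - E : ℝ) : ℂ) * u x := by
  intro x
  rw [Pool.Agent.K3h4.AN.Sp.H_eq]
  have h1 := h x
  unfold H at h1
  unfold Pool.Agent.H4R2.LO.Hg
  push_cast
  push_cast at h1
  linear_combination -h1

theorem spec_sp {d : ℕ} (σ : ℝ) (ξ : (Fin d → ℤ) → ℝ) (x : Fin d → ℤ) (m : Measure ℝ)
    (hm : IsSpectralMeasure (H σ ξ) (Pi.single x 1) m) :
    Pool.Agent.K3h4.AN.Sp.IsSpectralMeasureAt (Pool.Agent.K3h4.AN.Sp.H σ (fun y => -ξ y)) x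
      (m.map fun E : ℝ => 2 * (d : ℝ) - E) := by
  have h0 : Pool.Agent.H4R2.LO.IsSpec 1 (fun x => σ * ξ x) (Pi.single x 1) m := by
    rw [H_eq] at hm
    exact hm
  have h1 := Pool.Agent.H69.AN.S1.spec_refl 1 (2 * (d : ℝ)) (fun x => σ * ξ x) x m h0
  have e : (fun x => 2 * (d : ℝ) - σ * ξ x) = fun x => σ * -ξ x + 2 * (d : ℝ) := by
    funext y; ring
  rw [e] at h1
  have h2 := Pool.Agent.H69.AN.S1.moments σ (fun y => -ξ y) x _ h1
  have hfin : IsFiniteMeasure m := hm.1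
  refine ⟨Measure.isFiniteMeasure_map m _, fun n => ⟨(h2 n).1, ?_⟩⟩
  rw [Pool.Agent.K3h4.AN.Sp.iter_real, (h2 n).2]

open Pool.Agent.H541R3.AND.Trans Pool.Agent.H541R3.AND.Deloc in
/-- **Theorem.** -/
theorem result (η : ℝ) (hη : 0 < η) (hη' : η ≤ 1) :
    ∃ K : ℝ, 1 ≤ K ∧ ∀ σ : ℝ, 0 < σ → K * σ ≤ 1 → ∃ Es : ℝ, |Es - 6| ≤ 1 ∧
      -- (1) exponential localization for `|E| ≥ Es + κ`
      (∀ κ : ℝ, K * (σ ^ 4 * Real.log (Real.log (1 / σ)) ^ 2) ≤ κ → κ ≤ 1 →
        ∀ᵐ ξ ∂(Measure.infinitePi fun _ : Fin 3 → ℤ => gaussianReal 0 1),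
          Localized (H σ ξ) {E | Es + κ ≤ |E|} (Real.sqrt κ / (K * Real.log (2 / (κ * σ))))) ∧
      -- (2) the states of energy `|E| ≥ Es - κ` are spread out
      (∀ κ : ℝ, K * σ ^ 4 ≤ κ → κ ≤ 1 → ∃ Bad : ((Fin 3 → ℤ) → ℝ) → Set (Fin 3 → ℤ),
        (∀ x, MeasurableSet {ξ | x ∈ Bad ξ}) ∧
        (∀ ξ a x, x ∈ Bad (fun y => ξ (y + a)) ↔ x + a ∈ Bad ξ) ∧
        (∀ x, (Measure.infinitePi fun _ : Fin 3 → ℤ => gaussianReal 0 1).real {ξ | x ∈ Bad ξ} ≤
          K * Real.exp (-(Real.sqrt κ / (K * σ ^ 2)))) ∧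
        ∀ ξ x, x ∉ Bad ξ →
          (∀ (E : ℝ) (u : (Fin 3 → ℤ) → ℂ), Es - κ ≤ |E| → SqSummable u →
            (∀ y, H σ ξ u y = (E : ℂ) * u y) →
              ‖u x‖ ^ 2 ≤ K * κ ^ ((3 : ℝ) / 2) * ∑' y, ‖u y‖ ^ 2) ∧
          ∀ m : Measure ℝ, IsSpectralMeasure (H σ ξ) (Pi.single x 1) m →
            m.real {E | Es - κ ≤ |E|} ≤ K * κ ^ ((3 : ℝ) / 2)) ∧
      -- (3) on tori of side up to `1 / (K σ²)`
      ∀ (L : ℕ) [NeZero L], K * (σ ^ 2 * L) ≤ 1 →
        ∃ G : Set (T 3 L → ℝ), MeasurableSet G ∧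
          1 - K * Real.exp (-(1 / (K * (σ ^ 2 * L)))) ≤
            (Measure.pi fun _ : T 3 L => gaussianReal 0 1).real G ∧
          ∀ ξ ∈ G,
            (∃ (Et : ℝ) (ψ : T 3 L → ℝ), |Et - Es| ≤ K / (L : ℝ) ^ 2 ∧
              (∀ x, 1 ≤ ψ x ∧ ψ x ≤ 1 + η) ∧ (∀ x, HT σ ξ ψ x = Et * ψ x) ∧
              LikeFree ((1 + η) ^ 2) Et σ ξ) ∧
            ∀ κ : ℝ, 1 / (L : ℝ) ^ 2 ≤ κ → ∀ E : ℝ, Es - κ ≤ E →
              SpreadOutT σ ξ E (K * κ ^ ((3 : ℝ) / 2)) := by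
  obtain ⟨K0, hK0, HF⟩ := Pool.Agent.H69.AN.fin3G η hη hη'
  obtain ⟨C, hC, HD⟩ := Pool.Agent.K3h4.AN.Dl.main3 K0 (by linarith)
  obtain ⟨C2, hC2, HTo⟩ := Pool.Agent.W788.AN.tor 3 le_rfl
  have hK00 : 0 < K0 := by linarith
  obtain ⟨M, hM⟩ : ∃ M : ℝ, M = (1 + K0) ^ (((3 : ℕ) : ℝ) / 2) := ⟨_, rfl⟩
  have hM0 : 0 < M := by
    rw [hM]
    exact Real.rpow_pos_of_pos (by linarith) _
  have hC2M : 0 < C2 * M := by positivity
  obtain ⟨K, hK⟩ : ∃ z : ℝ, z = 64 * K0 ^ 2 + 8 * K0 + 2 * C + C2 * M + 2 := ⟨_, rfl⟩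
  have hKK0 : 8 * K0 ≤ K := by nlinarith
  have hKK0' : K0 ≤ K := by linarith
  have hK64 : 64 * K0 ^ 2 ≤ K := by linarith
  have hKC : 2 * C ≤ K := by nlinarith
  have hKC2 : C2 * M ≤ K := by nlinarith
  have hK1 : 1 ≤ K := by nlinarith
  have hKpos : 0 < K := by linarith
  have hcast : (((3 : ℕ) : ℝ) / 2) = (3 : ℝ) / 2 := by norm_num
  have e6 : (2 : ℝ) * ((3 : ℕ) : ℝ) = 6 := by norm_num
  refine ⟨K, hK1, ?_⟩
  intro σ hσ hσK
  have hσK0 : K0 * σ ≤ 1 := le_trans (by gcongr) hσK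
  have hσ1 : σ ≤ 1 := by nlinarith
  obtain ⟨es, hes, A1, A2⟩ := HF σ hσ hσK0
  have hes' := abs_le.1 hes
  refine ⟨6 - es, by rw [sub_sub_cancel_left, abs_neg]; exact hes, ?_, ?_, ?_⟩
  · -- localization
    intro κ hκ hκ1
    have hloglog : 0 ≤ σ ^ 4 * Real.log (Real.log (1 / σ)) ^ 2 := by positivity
    have hκ' : K0 * (σ ^ 4 * Real.log (Real.log (1 / σ)) ^ 2) ≤ κ := by
      refine le_trans ?_ hκ
      exact mul_le_mul_of_nonneg_right hKK0' hloglog
    have hlog1 : 1 < Real.log (1 / σ) := by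
      rw [Real.lt_log_iff_exp_lt (by positivity), lt_div_iff₀ hσ]
      have h1 : Real.exp 1 < 3 := lt_trans Real.exp_one_lt_d9 (by norm_num)
      have h2 : 8 * σ ≤ 1 := by
        have : 8 * σ ≤ K * σ := by gcongr; nlinarith
        linarith
      nlinarith
    have hll : 0 < Real.log (Real.log (1 / σ)) := Real.log_pos hlog1
    have hκ0 : 0 < κ := lt_of_lt_of_le (by positivity) hκ
    have hbase : 2 ≤ 2 / (κ * σ) := by
      rw [le_div_iff₀ (by positivity)]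
      have : κ * σ ≤ 1 := by nlinarith
      linarith
    have hX : 0 < Real.log (2 / (κ * σ)) := Real.log_pos (by linarith)
    have hsκ : 0 < Real.sqrt κ := Real.sqrt_pos.2 hκ0
    have hrate : Real.sqrt κ / (K * Real.log (2 / (κ * σ))) ≤
        Real.sqrt κ / (K0 * Real.log (2 / (κ * σ))) := by
      gcongr
    obtain ⟨m, hm⟩ : ∃ m : ℝ, m = Real.sqrt κ / (K * Real.log (2 / (κ * σ))) := ⟨_, rfl⟩
    have hmpos : 0 < m := by rw [hm]; positivity
    rw [← hm] at hrate ⊢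
    have hA : ∀ᵐ ξ ∂(Measure.infinitePi fun _ : Fin 3 → ℤ => gaussianReal 0 1),
        Pool.Agent.H4R2.LO.Main.Dec 3 (-1) (fun x => σ * ξ x) (Set.Iic (es - 6 - κ)) m := by
      filter_upwards [A2 κ hκ' hκ1] with ξ hξ
      rw [e6] at hξ
      exact Pool.Agent.H4R2.LO.Main.dec_mono _ _ _ _ _ _ hξ le_rfl hrate
    have hB : ∀ᵐ ξ ∂(Measure.infinitePi fun _ : Fin 3 → ℤ => gaussianReal 0 1),
        Pool.Agent.H4R2.LO.Main.Dec 3 (-1) (fun x => σ * -ξ x) (Set.Iic (es - 6 - κ)) m := by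
      have h3 := hA
      rw [← law_neg 3] at h3
      have hm2 : Measurable (fun (ω : (Fin 3 → ℤ) → ℝ) x => -ω x) := by fun_prop
      exact ae_of_ae_map hm2.aemeasurable h3
    filter_upwards [hA, hB] with ξ hξ hξ'
    apply localized_of σ ξ _ m hmpos
    have q1 := Pool.Agent.H4R2.LO.Main.dec_stag _ _ _ m hξ
    have q2 := Pool.Agent.H4R2.LO.Main.dec_neg _ _ _ m hξ'
    simp only [neg_neg, mul_neg] at q1 q2
    refine Pool.Agent.H4R2.LO.Main.dec_mono _ _ _ _ _ _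
      (Pool.Agent.H4R2.LO.Main.dec_union _ _ _ _ m q1 q2) ?_ le_rfl
    intro E hE
    have hE' : 6 - es + κ ≤ |E| := hE
    rcases abs_cases E with ⟨h, _⟩ | ⟨h, _⟩
    · right
      show -E ≤ es - 6 - κ
      linarith
    · left
      show E ≤ es - 6 - κ
      linarith
  · -- the spread-out states
    intro κ hκ hκ1
    have hκ0 : 0 < κ := lt_of_lt_of_le (by positivity) hκ
    have hs0 : 0 < Real.sqrt κ := Real.sqrt_pos.2 hκ0
    have hs1 : Real.sqrt κ ≤ 1 := Real.sqrt_le_one.2 hκ1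
    have hss : Real.sqrt κ ^ 2 = κ := Real.sq_sqrt hκ0.le
    have hl2 : 0 < σ ^ 2 := by positivity
    have hsl : 8 * K0 * σ ^ 2 ≤ Real.sqrt κ := by
      apply Real.le_sqrt_of_sq_le
      calc (8 * K0 * σ ^ 2) ^ 2 = 64 * K0 ^ 2 * σ ^ 4 := by ring
        _ ≤ K * σ ^ 4 := by gcongr
        _ ≤ κ := hκ
    obtain ⟨h, hh⟩ : ∃ n : ℕ, n = ⌈2 / Real.sqrt κ⌉₊ := ⟨_, rfl⟩
    have hge : 2 / Real.sqrt κ ≤ h := by rw [hh]; exact Nat.le_ceil _
    have hlt : (h : ℝ) < 2 / Real.sqrt κ + 1 := by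
      rw [hh]; exact Nat.ceil_lt_add_one (by positivity)
    have hinv : 1 ≤ 1 / Real.sqrt κ := by rw [le_div_iff₀ hs0]; linarith
    have h2inv : 2 / Real.sqrt κ = 2 * (1 / Real.sqrt κ) := by ring
    have hpos' : (0 : ℝ) < h := by linarith
    have hpos : 0 < h := by exact_mod_cast hpos'
    have h4h : 4 / (h : ℝ) ^ 2 ≤ κ := by
      rw [div_le_iff₀ (by positivity)]
      rw [div_le_iff₀ hs0] at hge
      have h1 : 2 ^ 2 ≤ ((h : ℝ) * Real.sqrt κ) ^ 2 := pow_le_pow_left₀ (by norm_num) hge 2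
      rw [mul_pow, hss] at h1
      linarith
    have hLe : ((2 * h + 1 : ℕ) : ℝ) ≤ 8 / Real.sqrt κ := by
      push_cast
      have : 8 / Real.sqrt κ = 8 * (1 / Real.sqrt κ) := by ring
      linarith
    have hLpos : (0 : ℝ) < ((2 * h + 1 : ℕ) : ℝ) := by positivity
    have hyL : σ ^ 2 * ((2 * h + 1 : ℕ) : ℝ) ≤ 8 * σ ^ 2 / Real.sqrt κ := by
      calc σ ^ 2 * ((2 * h + 1 : ℕ) : ℝ) ≤ σ ^ 2 * (8 / Real.sqrt κ) := by gcongr
        _ = _ := by ring
    have hL : K0 * (σ ^ 2 * ((2 * h + 1 : ℕ) : ℝ)) ≤ 1 := by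
      calc K0 * (σ ^ 2 * ((2 * h + 1 : ℕ) : ℝ)) ≤ K0 * (8 * σ ^ 2 / Real.sqrt κ) := by gcongr
        _ = (8 * K0 * σ ^ 2) / Real.sqrt κ := by ring
        _ ≤ 1 := by rw [div_le_one hs0]; exact hsl
    have hpr : K0 * Real.exp (-(1 / (K0 * (σ ^ 2 * ((2 * h + 1 : ℕ) : ℝ))))) ≤
        K / 2 * Real.exp (-(Real.sqrt κ / (K * σ ^ 2))) := by
      have h1 : Real.exp (-(1 / (K0 * (σ ^ 2 * ((2 * h + 1 : ℕ) : ℝ))))) ≤
          Real.exp (-(Real.sqrt κ / (K * σ ^ 2))) := by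
        refine Real.exp_le_exp.2 (neg_le_neg ?_)
        rw [div_le_div_iff₀ (by positivity) (by positivity)]
        calc Real.sqrt κ * (K0 * (σ ^ 2 * ((2 * h + 1 : ℕ) : ℝ))) ≤
              Real.sqrt κ * (K0 * (8 * σ ^ 2 / Real.sqrt κ)) := by gcongr
          _ = 8 * K0 * σ ^ 2 := by field_simp
          _ ≤ 1 * (K * σ ^ 2) := by rw [one_mul]; gcongr
      refine mul_le_mul ?_ h1 (Real.exp_pos _).le (by linarith)
      linarith
    obtain ⟨G, hG, hP, hf⟩ := A1 (2 * h + 1) hL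
    have hm1 : ∀ x : Fin 3 → ℤ, Measurable (fun ξ : (Fin 3 → ℤ) → ℝ => VT h ξ x) := by
      intro x
      unfold VT
      fun_prop
    have hm2 : ∀ x : Fin 3 → ℤ, Measurable
        (fun ξ : (Fin 3 → ℤ) → ℝ => VT h (fun y => -ξ y) x) := by
      intro x
      unfold VT
      fun_prop
    refine ⟨fun ξ => {x | VT h ξ x ∉ G ∨ VT h (fun y => -ξ y) x ∉ G}, fun x => ?_,
      fun ξ a x => ?_, fun x => ?_, fun ξ x hx => ?_⟩
    · exact ((hm1 x) hG.compl).union ((hm2 x) hG.compl)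
    · have e1 : VT h (fun y => ξ (y + a)) x = VT h ξ (x + a) := by
        funext t
        unfold VT
        show ξ (x + lift t + a) = ξ (x + a + lift t)
        congr 1
        abel
      have e2 : VT h (fun y => -ξ (y + a)) x = VT h (fun y => -ξ y) (x + a) := by
        funext t
        unfold VT
        show -ξ (x + lift t + a) = -ξ (x + a + lift t)
        congr 2
        abel
      show VT h (fun y => ξ (y + a)) x ∉ G ∨ VT h (fun y => -ξ (y + a)) x ∉ G ↔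
        VT h ξ (x + a) ∉ G ∨ VT h (fun y => -ξ y) (x + a) ∉ G
      rw [e1, e2]
    · have p1 : (Measure.infinitePi fun _ : Fin 3 → ℤ => gaussianReal 0 1).real
          {ξ | VT h ξ x ∉ G} ≤ K / 2 * Real.exp (-(Real.sqrt κ / (K * σ ^ 2))) := by
        rw [Pool.Agent.K3h4.AN.Sp.bad_prob (gaussianReal 0 1) h G hG x,
          probReal_compl_eq_one_sub hG]
        linarith
      have p2 : (Measure.infinitePi fun _ : Fin 3 → ℤ => gaussianReal 0 1).real
          {ξ | VT h (fun y => -ξ y) x ∉ G} ≤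
          K / 2 * Real.exp (-(Real.sqrt κ / (K * σ ^ 2))) := by
        have h1 := p1
        rw [← law_neg 3] at h1
        have hmn : Measurable (fun (ξ : (Fin 3 → ℤ) → ℝ) x => -ξ x) := by fun_prop
        have hms : MeasurableSet {ξ : (Fin 3 → ℤ) → ℝ | VT h ξ x ∉ G} := (hm1 x) hG.compl
        rw [map_measureReal_apply hmn hms] at h1
        exact h1
      have e : {ξ : (Fin 3 → ℤ) → ℝ | x ∈ {x | VT h ξ x ∉ G ∨ VT h (fun y => -ξ y) x ∉ G}} =
          {ξ | VT h ξ x ∉ G} ∪ {ξ | VT h (fun y => -ξ y) x ∉ G} := rfl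
      rw [e]
      refine (measureReal_union_le _ _).trans ?_
      linarith
    · have hx' : ¬ (VT h ξ x ∉ G ∨ VT h (fun y => -ξ y) x ∉ G) := hx
      push Not at hx'
      obtain ⟨hx1, hx2⟩ := hx'
      have hpw : 0 ≤ κ ^ ((3 : ℝ) / 2) := by positivity
      have good : ∀ ω : (Fin 3 → ℤ) → ℝ, VT h ω x ∈ G → GoodAt h σ K0 es ω x := by
        intro ω hω
        obtain ⟨E0, ψ, h1, h2, h3, -⟩ := hf _ hω
        exact ⟨E0, ψ, h1, fun y => ⟨(h2 y).1, (h2 y).2.trans (by linarith)⟩, h3⟩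
      obtain ⟨D1, D2⟩ := HD h σ es (fun y => -ξ y) x hpos (good _ hx2) κ h4h hκ1
      obtain ⟨D3, D4⟩ := HD h σ es ξ x hpos (good _ hx1) κ h4h hκ1
      have e0 : (fun y => - -ξ y) = ξ := by funext y; ring
      rw [hcast] at D1 D2 D3 D4
      obtain ⟨F1, F2⟩ := Pool.Agent.K3h4.AN.Sp.two_sided (C * κ ^ ((3 : ℝ) / 2)) σ (es + κ)
        (es + κ) (fun y => -ξ y) x D1 D2 (by rw [e0]; exact D3) (by rw [e0]; exact D4)
      refine ⟨fun E u hE hu hEu => ?_, fun m hm => ?_⟩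
      · have h1 := F1 (2 * ((3 : ℕ) : ℝ) - E) u (by
          rcases abs_cases E with ⟨h, _⟩ | ⟨h, _⟩
          · left
            rw [e6]
            linarith
          · right
            push_cast
            linarith) hu (H_sp σ E ξ u hEu)
        have hS0 : 0 ≤ ∑' y, ‖u y‖ ^ 2 := tsum_nonneg fun y => by positivity
        refine h1.trans (mul_le_mul_of_nonneg_right ?_ hS0)
        exact mul_le_mul_of_nonneg_right (by linarith) hpw
      · obtain ⟨f1, f2⟩ := F2 _ (spec_sp σ ξ x m hm)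
        have hfin : IsFiniteMeasure m := hm.1
        have hmeas : Measurable fun E : ℝ => 2 * ((3 : ℕ) : ℝ) - E := by fun_prop
        rw [map_measureReal_apply hmeas measurableSet_Iic] at f1
        rw [map_measureReal_apply hmeas measurableSet_Ici] at f2
        have hsub : {E : ℝ | 6 - es - κ ≤ |E|} ⊆
            ((fun E : ℝ => 2 * ((3 : ℕ) : ℝ) - E) ⁻¹' Set.Iic (es + κ)) ∪
            ((fun E : ℝ => 2 * ((3 : ℕ) : ℝ) - E) ⁻¹' Set.Ici (4 * ((3 : ℕ) : ℝ) - (es + κ))) := by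
          intro E hE
          have hE' : 6 - es - κ ≤ |E| := hE
          rcases abs_cases E with ⟨h, _⟩ | ⟨h, _⟩
          · left
            simp only [Set.mem_preimage, Set.mem_Iic]
            rw [e6]
            linarith
          · right
            simp only [Set.mem_preimage, Set.mem_Ici]
            push_cast
            linarith
        refine (measureReal_mono hsub (measure_ne_top m _)).trans
          ((measureReal_union_le _ _).trans ?_)
        have h2 : 2 * C * κ ^ ((3 : ℝ) / 2) ≤ K * κ ^ ((3 : ℝ) / 2) :=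
          mul_le_mul_of_nonneg_right hKC hpw
        linarith
  · -- tori
    intro L _ hL
    have hL0 : (0 : ℝ) < L := by exact_mod_cast Nat.pos_of_ne_zero (NeZero.ne L)
    obtain ⟨G, hG, hP, hflat⟩ := A1 L (le_trans (by gcongr) hL)
    have hm : Measurable (fun (ξ : T 3 L → ℝ) y => -ξ y) := by fun_prop
    refine ⟨(fun ξ y => -ξ y) ⁻¹' G, hm hG, ?_, fun ξ hξ => ?_⟩
    · have h1 : (Measure.pi fun _ : T 3 L => gaussianReal 0 1).real ((fun ξ y => -ξ y) ⁻¹' G) =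
          (Measure.pi fun _ : T 3 L => gaussianReal 0 1).real G := by
        conv_rhs => rw [← lawT_neg 3 L]
        rw [map_measureReal_apply hm hG]
      rw [h1]
      refine le_trans ?_ hP
      have h2 : Real.exp (-(1 / (K0 * (σ ^ 2 * L)))) ≤ Real.exp (-(1 / (K * (σ ^ 2 * L)))) := by
        refine Real.exp_le_exp.2 (neg_le_neg ?_)
        apply one_div_le_one_div_of_le (by positivity)
        gcongr
      have h3 := mul_le_mul hKK0' h2 (Real.exp_pos _).le hKpos.le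
      linarith
    · obtain ⟨E0, ψ, h1, h2, h3, -⟩ := hflat _ hξ
      have h4 : ∀ x, HT σ ξ ψ x = (6 - E0) * ψ x := fun x => by
        rw [HT_eq, h3 x, e6]
        ring
      refine ⟨⟨6 - E0, ψ, ?_, h2, h4, likeFree η σ (6 - E0) hη ξ ψ h2 h4⟩, ?_⟩
      · have e1 : 6 - E0 - (6 - es) = -(E0 - es) := by ring
        rw [e1, abs_neg]
        exact h1.trans (div_le_div_of_nonneg_right hKK0' (by positivity))
      · intro κ hκ E hE u hu x
        have hκ0 : 0 < κ := lt_of_lt_of_le (by positivity) hκ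
        have h4 := HTo L σ K0 es E0 (fun y => -ξ y) ψ (by linarith) h1
          (fun x => ⟨(h2 x).1, by linarith [(h2 x).2]⟩) h3 κ (6 - E) hκ (by linarith) u
          (fun y => by
            have := hu y
            rw [HT_eq, e6] at this
            linarith) x
        rw [← hM, hcast] at h4
        refine h4.trans ?_
        apply mul_le_mul_of_nonneg_right _ (Finset.sum_nonneg fun y _ => sq_nonneg _)
        apply mul_le_mul_of_nonneg_right hKC2 (Real.rpow_nonneg hκ0.le _)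

end Pool.Agent.Results.MP_1906c1_mp.EdgeScaleThreeDim
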